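import Pool.Agent.Lib.MP_269084_lc.Family
import Pool.Agent.Lib.MP_269084_lc.Params

set_option autoImplicit false

namespace Pool.Agent.Results.MP_269084_lc.LocalLabels

open Pool.Agent.Lib.MP_269084_lc

theorem result (n k b r : ℕ) (M : Fin k → Type) [∀ i, Monoid (M i)] [∀ i, Finite (M i)] (hM : ∀ i, Nat.card (M i) ≤ 2 ^ b)
    (w : ∀ i, Fin (n + 1) × Set (Fin (n + 1) × Fin (n + 1)) → Fin (n + 1) × Set (Fin (n + 1) × Fin (n + 1)) → M i)
    (h : ∀ G : Fin (n + 1) → Fin (n + 1) → Prop, (∀ u v, G u v → u < v) →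
      (∃ layer : Fin (n + 1) → ℕ, ∀ u v, G u v → layer v = layer u + 1) → (∃ l, IsPath G 0 (Fin.last n) l) →
      ∃ i x, Odd {l | IsPath G 0 (Fin.last n) l ∧ label (fun u v => w i (ball G r u) (ball G r v)) l = x}.ncard) :
    (n : ℝ) ≤ k * ((r : ℝ) + 1) * (2 : ℝ) ^ (13 * √(b : ℝ) + 17) := by
  rcases Nat.eq_zero_or_pos k with hk | hk
  · subst hk
    rcases Nat.eq_zero_or_pos n with hn | hn
    · subst hn
      simp
    · exfalso
      have h0 : (0 : Fin (n + 1)) ≠ Fin.last n := by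
        intro h1
        have h2 := congrArg Fin.val h1
        simp at h2
        omega
      obtain ⟨i, -⟩ := h (fun u v => u = 0 ∧ v = Fin.last n) (by
          rintro u v ⟨rfl, rfl⟩
          exact lt_of_le_of_ne (Fin.zero_le _) h0)
        ⟨fun v => if v = Fin.last n then 1 else 0, by
          rintro u v ⟨rfl, rfl⟩
          simp [h0]⟩ ⟨[0, Fin.last n], by simp [IsPath]⟩
      exact i.elim0
  · by_contra hcon
    push Not at hcon
    obtain ⟨m, T, q, hq, hm, hn, hc⟩ := params n k b r hk hcon.le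
    obtain ⟨G, hG1, hG2, hG3, hG4⟩ := core5 n _ k r (r + 1) T q m hk (Nat.succ_pos r) (Nat.le_succ r) hq rfl hn hm M
      (fun i => hc _ (hM i)) w
    obtain ⟨i, x, hodd⟩ := h G hG1 hG2 hG3
    exact (Nat.not_even_iff_odd.2 hodd) (hG4 i x)

end Pool.Agent.Results.MP_269084_lc.LocalLabels
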