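import Pool.Agent.Lib.MP_269084_lc.Embed
import Pool.Agent.Lib.MP_269084_lc.Params

set_option autoImplicit false

namespace Pool.Agent.Results.MP_269084_lc.WalkerMemory

open Pool.Agent.Lib.MP_269084_lc

theorem result (n b r : ℕ) (hn : ((r : ℝ) + 1) * (2 : ℝ) ^ (13 * √(b : ℝ) + 17) ≤ n) (X : Type) [Finite X] (hX : Nat.card X ≤ 2 ^ b)
    (Λ : List (Fin (n + 1) × Set (Fin (n + 1) × Fin (n + 1))) → X) :
    ∃ G : Fin (n + 1) → Fin (n + 1) → Prop, (∀ u v, G u v → u < v) ∧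
      (∃ layer : Fin (n + 1) → ℕ, ∀ u v, G u v → layer v = layer u + 1) ∧
      ∃ l l' : List (Fin (n + 1)), l ≠ l' ∧ (∀ l'', IsPath G 0 (Fin.last n) l'' ↔ l'' = l ∨ l'' = l') ∧
        Λ (l.map (ball G r)) = Λ (l'.map (ball G r)) := by
  obtain ⟨m, T, q, hq, hm, hn', hc⟩ := params n 1 b r Nat.one_pos (by simpa using hn)
  rw [one_mul] at hn'
  exact core4 n _ r (r + 1) T q m (Nat.succ_pos r) (Nat.le_succ r) hq rfl hn' hm (hc _ hX) Λ

end Pool.Agent.Results.MP_269084_lc.WalkerMemory
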